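import Pool.Agent.H2.GEN.Rlv

/-!
# No relation in a class, uniform form

`relvU`: `Pool.CHT.relvC_of` with numbers `β` instead of the thresholds at `(a, w)`, all margins in the
unit `q`.
-/

set_option autoImplicit false

namespace Pool.STV90

open Finset Real MvPolynomial
open Pool.Agent.H49.Ent Pool.Agent.H32.Dense Pool.STK Pool.KA Pool.KSAT Pool.K2S Pool.PB
open Pool.GEN Pool.CHT Pool.S6C
open Pool.LBT (LSys Slo Tri ThrOf)
open Pool.LEV (Law)

/-- The hierarchy of the losses. -/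
theorem epf_sum {V D r : ℕ} {K : ℕ → ℕ} {ε : ℝ} (hε : 0 < ε) {l : ℕ} (hl : l < r) :
    ∑ j ∈ range l, epf V D r r K ε j * ((K l * dgp K j l : ℕ) : ℝ) ≤ epf V D r r K ε l / 2 := by
  have h1 : ∀ j ∈ range l, epf V D r r K ε j * ((K l * dgp K j l : ℕ) : ℝ) ≤
      epf V D r r K ε l / (12 * (r + 1)) := by
    intro j hj
    have hj' := mem_range.1 hj
    obtain ⟨T, hT⟩ : ∃ T : ℕ, T = r + D + 1 + ∑ l' ∈ Finset.Ioo j r, K l' := ⟨_, rfl⟩
    have hdg : dgp K j l ≤ T ^ r := dgp_le' K hl.le le_rfl (by rw [hT]; omega)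
    have hK : K l ≤ T := by
      have : K l ≤ ∑ l' ∈ Finset.Ioo j r, K l' :=
        Finset.single_le_sum (f := K) (fun _ _ => Nat.zero_le _) (Finset.mem_Ioo.2 ⟨hj', hl⟩)
      omega
    have h4 : K l * dgp K j l ≤ T ^ (r + 1) := by
      calc K l * dgp K j l ≤ T * T ^ r := Nat.mul_le_mul hK hdg
        _ = _ := by rw [pow_succ]; ring
    have h5 : 12 * (r + 1) * (K l * dgp K j l) ≤ Zf V D r T := by
      unfold Zf
      calc 12 * (r + 1) * (K l * dgp K j l) ≤ 12 * (r + 1) * T ^ (r + 1) :=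
            Nat.mul_le_mul_left _ h4
        _ ≤ _ := Nat.le_add_left _ _
    have h6 : 12 * ((r : ℝ) + 1) * ((K l * dgp K j l : ℕ) : ℝ) ≤ Zf V D r T := by
      exact_mod_cast h5
    have h7 := epf_mul (V := V) (D := D) (r := r) (K := K) hε hj' hl.le
    rw [← hT] at h7
    rw [le_div_iff₀ (by positivity)]
    refine le_trans ?_ h7
    calc epf V D r r K ε j * ((K l * dgp K j l : ℕ) : ℝ) * (12 * ((r : ℝ) + 1)) =
          epf V D r r K ε j * (12 * (r + 1) * ((K l * dgp K j l : ℕ) : ℝ)) := by ring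
      _ ≤ _ := mul_le_mul_of_nonneg_left h6 (epf_pos hε j).le
  have h2 := Finset.sum_le_sum h1
  rw [Finset.sum_const, card_range, nsmul_eq_mul] at h2
  refine h2.trans ?_
  have h3 : (l : ℝ) ≤ r + 1 := by
    have : l ≤ r + 1 := by omega
    exact_mod_cast this
  have h4 := (epf_pos (V := V) (D := D) (r := r) (i := r) (K := K) hε l).le
  rw [mul_div_assoc', div_le_div_iff₀ (by positivity) (by norm_num)]
  have h5 : (l : ℝ) * epf V D r r K ε l ≤ (r + 1) * epf V D r r K ε l :=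
    mul_le_mul_of_nonneg_right h3 h4
  have h6 : 0 ≤ ((r : ℝ) + 1) * epf V D r r K ε l := by positivity
  linarith

/-- **No relation in a class, from approximate thresholds**, with uniform losses: `Pool.CHT.relvC_of`
with the numbers `β` instead of the thresholds at `(a, w)`, all margins in the unit `q`. -/
theorem relvU (r D : ℕ) (K : ℕ → ℕ) {V₀ τ η : ℝ} (hV : 0 ≤ V₀) (hτ : 0 < τ) (hη : 0 < η) :
    ∃ (φ : ℕ → ℝ) (s₀ : ℝ), (∀ l, 0 < φ l ∧ φ l ≤ τ) ∧
    (∀ l < r, ∑ j ∈ range l, φ j * ((K l * dgp K j l : ℕ) : ℝ) ≤ φ l / 2) ∧ 0 < s₀ ∧ s₀ ≤ τ ∧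
    ∀ {m : ℕ} {S : PCl m} {P : List (Fin m) × Fin m → ℝ → ℝ → ℝ} {θ : ℝ} {c : ℕ → Fin m}
      {a w vs e₀ q : ℝ} {β : ℕ → ℝ}, ThrOf (chsys m θ) S P → 0 < θ → TmH S →
      Set.InjOn c (Set.Iio r) → 0 < q → τ * q ≤ w → w ≤ a → a + τ * q ≤ 1 →
      (∀ l < r, a ≤ β l) →
      (∀ l < r, ∀ o : ℝ, s₀ * q ≤ o → o ≤ τ * q →
        bet P c l (a + o) (w + o) ≤ β l + V₀ * o + s₀ * q) →
      (∀ l < r, β l + θ * w + τ * q ≤ 1) → 0 ≤ vs → (∀ i < r, ∀ l < i, β l ≤ β i + vs) →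
      0 ≤ e₀ → e₀ + 2 * vs + τ * q ≤ θ * w → ∀ η' : ℝ, 0 < η' →
      Bas S (RelvS c r K β (fun l => φ l * q) a w e₀ D (η * q) η') := by
  classical
  have hV₀0 := hV
  obtain ⟨V, hVe⟩ : ∃ V : ℕ, V = ⌈16 * V₀⌉₊ + 4 := ⟨_, rfl⟩
  have hVr : 16 * V₀ + 4 ≤ (V : ℝ) := by
    rw [hVe]
    push_cast
    have := Nat.le_ceil (16 * V₀)
    linarith
  have hV0' : (0 : ℝ) ≤ V := Nat.cast_nonneg V
  have hZ1 : ∀ T : ℕ, (1 : ℝ) ≤ Zf V D r T := fun T => by exact_mod_cast one_le_Zf V D r T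
  -- the constants in the unit `q`
  obtain ⟨ε₁, hε₁⟩ : ∃ ε₁ : ℝ, ε₁ = min (η / 8) (min (τ / (64 * (V₀ + 1)))
    (min (τ / (8 * (V + 10))) (τ / 32))) := ⟨_, rfl⟩
  have hε₁0 : 0 < ε₁ := by
    rw [hε₁]
    exact lt_min (by positivity) (lt_min (by positivity) (lt_min (by positivity) (by positivity)))
  have a1 : ε₁ ≤ η / 8 := by rw [hε₁]; exact min_le_left _ _
  have a2 : ε₁ ≤ τ / (64 * (V₀ + 1)) := by rw [hε₁]; exact (min_le_right _ _).trans (min_le_left _ _)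
  have a3 : ε₁ ≤ τ / (8 * (V + 10)) := by
    rw [hε₁]
    exact (min_le_right _ _).trans ((min_le_right _ _).trans (min_le_left _ _))
  have a4 : ε₁ ≤ τ / 32 := by
    rw [hε₁]
    exact (min_le_right _ _).trans ((min_le_right _ _).trans (min_le_right _ _))
  obtain ⟨o₁, ho₁⟩ : ∃ o₁ : ℝ, o₁ = τ / (8 * (V₀ + 1)) := ⟨_, rfl⟩
  have ho₁0 : 0 < o₁ := by
    rw [ho₁]
    positivity
  have ho₁1 : 8 * (V₀ + 1) * o₁ = τ := by
    rw [ho₁]
    field_simp
  obtain ⟨κ, N, Kn, hκ1, hrel⟩ := Pool.RLV.relv_fam V D r K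
  obtain ⟨εm₁, hεm₁, hεml₁⟩ := fin_pos (r + 1) (f := epf V D r r K ε₁) fun k _ => epf_pos hε₁0 k
  obtain ⟨km, hkm₁⟩ := exists_pow_lt_of_lt_one (show 0 < 2 * εm₁ / o₁ by positivity)
    (show (1 / 2 : ℝ) < 1 by norm_num)
  have hφle : ∀ l, epf V D r r K ε₁ l ≤ ε₁ := by
    intro l
    rcases Nat.lt_or_ge r l with h | h
    · unfold epf
      rw [Nat.sub_eq_zero_of_le h.le, pow_zero, div_one]
    · exact epf_le hε₁0 h
  obtain ⟨s₀, hs₀⟩ : ∃ s₀ : ℝ, s₀ = min εm₁ (o₁ * (1 / 2) ^ km) := ⟨_, rfl⟩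
  have hs₀1 : s₀ ≤ εm₁ := by rw [hs₀]; exact min_le_left _ _
  have hs₀2 : s₀ ≤ o₁ * (1 / 2) ^ km := by rw [hs₀]; exact min_le_right _ _
  refine ⟨epf V D r r K ε₁, s₀, fun l => ⟨epf_pos hε₁0 l, ?_⟩, fun l hl => epf_sum hε₁0 hl,
    ?_, ?_, ?_⟩
  · linarith [hφle l]
  · rw [hs₀]
    exact lt_min hεm₁ (by positivity)
  · linarith [hεml₁ r (by omega), hφle r]
  intro m S P θ c a w vs e₀ Q β hP hθ hS hc hQ hτw hwa haτ hβa hgr hβ1 hvs hsrt he₀ he η' hη'
  have hτQ : 0 < τ * Q := mul_pos hτ hQ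
  have hw : 0 < w := hτQ.trans_le hτw
  have ha0 : 0 < a := hw.trans_le hwa
  have ha : a < 1 := by linarith
  obtain ⟨σ, hσe⟩ : ∃ σ, σ = τ * Q := ⟨_, rfl⟩
  have hσ : 0 < σ := by rw [hσe]; exact hτQ
  have hσl : ∀ l < r, σ ≤ 1 - (β l + θ * w) := fun l hl => by
    rw [hσe]
    linarith [hβ1 l hl]
  obtain ⟨o', ho'⟩ : ∃ o' : ℝ, o' = Q * o₁ := ⟨_, rfl⟩
  have ho'0 : 0 < o' := by
    rw [ho']
    exact mul_pos hQ ho₁0
  have ho'4 : 8 * (V₀ + 1) * o' = σ := by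
    rw [ho', hσe, ← ho₁1]
    ring
  have ho'5 : 0 ≤ V₀ * o' := mul_nonneg hV₀0 ho'0.le
  have ho'3 : 8 * V₀ * o' ≤ σ := by linarith
  have ho'6 : 8 * o' ≤ τ * Q := by
    rw [← hσe]
    linarith
  obtain ⟨εh, hεh⟩ : ∃ εh : ℝ, εh = Q * ε₁ := ⟨_, rfl⟩
  have hε0 : 0 < εh := by
    rw [hεh]
    exact mul_pos hQ hε₁0
  obtain ⟨η₂, hη₂⟩ : ∃ η₂ : ℝ, η₂ = η * Q := ⟨_, rfl⟩
  have hε1 : εh ≤ η₂ / 8 := by
    rw [hεh, hη₂]
    have := mul_le_mul_of_nonneg_left a1 hQ.le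
    linarith
  have hε2 : εh ≤ o' / 8 := by
    rw [hεh, ho', ho₁]
    have h1 := mul_le_mul_of_nonneg_left a2 hQ.le
    refine h1.trans (le_of_eq ?_)
    field_simp
    ring
  have hε3 : 8 * (V + 10) * εh ≤ σ := by
    rw [le_div_iff₀ (by positivity)] at a3
    rw [hεh, hσe]
    have := mul_le_mul_of_nonneg_left a3 hQ.le
    linarith
  have hε6 : εh ≤ τ * Q / 32 := by
    rw [hεh]
    have := mul_le_mul_of_nonneg_left a4 hQ.le
    linarith
  have hε5 : εh ≤ a / 32 := by linarith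
  obtain ⟨d, hd⟩ : ∃ d : ℕ → ℝ, d = fun l => epf V D r r K ε₁ l * Q := ⟨_, rfl⟩
  rw [← hη₂, ← hd]
  obtain ⟨eps, heps⟩ : ∃ eps : ℕ → ℝ, eps = epf V D r r K εh := ⟨_, rfl⟩
  obtain ⟨T, hT⟩ : ∃ T : ℕ → ℕ, T = fun j => r + D + 1 + ∑ l' ∈ Finset.Ioo j r, K l' := ⟨_, rfl⟩
  have hep0 : ∀ j, 0 < eps j := fun j => by rw [heps]; exact epf_pos hε0 j
  have hepi : eps r = εh := by rw [heps]; exact epf_self
  have heple : ∀ j ≤ r, eps j ≤ εh := fun j hj => by rw [heps]; exact epf_le hε0 hj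
  have hepm : ∀ j l, j < l → l ≤ r → eps j * Zf V D r (T j) ≤ eps l := fun j l h1 h2 => by
    rw [heps, hT]; exact epf_mul hε0 h1 h2
  have hde : ∀ l, d l = eps l := fun l => by
    rw [hd, heps, hεh]
    show epf V D r r K ε₁ l * Q = _
    unfold epf
    ring
  have hd0 : ∀ l < r, 0 < d l := fun l _ => by
    rw [hde]
    exact hep0 l
  have hdle : ∀ l < r, d l ≤ eps l := fun l _ => (hde l).le
  have hT1 : ∀ j, 1 ≤ T j := fun j => by rw [hT]; show 1 ≤ r + D + 1 + _; omega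
  have hdg : ∀ j l, j < l → l ≤ r → dgp K j l ≤ T j ^ r := fun j l _ hl =>
    dgp_le' K hl le_rfl (by rw [hT]; show _ ≤ r + D + 1 + _; omega)
  have hKT : ∀ j l, j < l → l < r → K l ≤ T j := fun j l h1 h2 => by
    have : K l ≤ ∑ l' ∈ Finset.Ioo j r, K l' :=
      Finset.single_le_sum (f := K) (fun _ _ => Nat.zero_le _) (Finset.mem_Ioo.2 ⟨h1, h2⟩)
    rw [hT]
    show K l ≤ r + D + 1 + _
    omega
  have hDT : ∀ j, D ≤ T j := fun j => by rw [hT]; show D ≤ r + D + 1 + _; omega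
  -- the sums of the losses
  have hloss : ∀ j l k, j < l → l ≤ r → k ≤ T j →
      12 * (r + 1) * (eps j * (k * dgp K j l : ℕ)) ≤ eps l := by
    intro j l k h1 h2 h3
    have h4 : k * dgp K j l ≤ T j ^ (r + 1) := by
      calc k * dgp K j l ≤ T j * T j ^ r := Nat.mul_le_mul h3 (hdg j l h1 h2)
        _ = _ := by rw [pow_succ]; ring
    have h5 : 12 * (r + 1) * (k * dgp K j l) ≤ Zf V D r (T j) := by
      unfold Zf
      calc 12 * (r + 1) * (k * dgp K j l) ≤ 12 * (r + 1) * T j ^ (r + 1) :=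
            Nat.mul_le_mul_left _ h4
        _ ≤ _ := Nat.le_add_left _ _
    have h6 : 12 * ((r : ℝ) + 1) * ((k * dgp K j l : ℕ) : ℝ) ≤ Zf V D r (T j) := by
      exact_mod_cast h5
    refine le_trans ?_ (hepm j l h1 h2)
    calc 12 * ((r : ℝ) + 1) * (eps j * ((k * dgp K j l : ℕ) : ℝ)) =
          eps j * (12 * (r + 1) * ((k * dgp K j l : ℕ) : ℝ)) := by ring
      _ ≤ _ := mul_le_mul_of_nonneg_left h6 (hep0 j).le
  obtain ⟨εm, hεme⟩ : ∃ εm, εm = Q * εm₁ := ⟨_, rfl⟩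
  have hεm : 0 < εm := by
    rw [hεme]
    exact mul_pos hQ hεm₁
  have hεml : ∀ l < r + 1, εm ≤ eps l := fun l hl => by
    rw [← hde, hd, hεme, mul_comm Q]
    exact mul_le_mul_of_nonneg_right (hεml₁ l hl) hQ.le
  have hs₀ε : s₀ * Q ≤ εm := by
    rw [hεme, mul_comm Q]
    exact mul_le_mul_of_nonneg_right hs₀1 hQ.le
  obtain ⟨εt, hεt⟩ : ∃ εt : ℝ, εt = εm / (4 * (κ + 1)) := ⟨_, rfl⟩
  have hεt0 : 0 < εt := by rw [hεt]; positivity
  have hεtκ : κ * εt ≤ εm / 4 := by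
    have h1 : 4 * (κ + 1) * εt = εm := by rw [hεt]; field_simp
    linarith
  -- the grid
  have hkm : (1 / 2 : ℝ) ^ km < 2 * εm / o' := by
    have h1 : 2 * εm / o' = 2 * εm₁ / o₁ := by
      rw [hεme, ho']
      field_simp
    rw [h1]
    exact hkm₁
  have hgrid : ∀ k : ℕ, ∃ a' w' : ℚ, w + o' * (1 / 2) ^ k < w' ∧
      (w' : ℝ) < w + 3 / 2 * (o' * (1 / 2) ^ k) ∧ a + 3 / 2 * (o' * (1 / 2) ^ k) < a' ∧
      (a' : ℝ) < a + 2 * (o' * (1 / 2) ^ k) := by
    intro k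
    have h1 : 0 < o' * (1 / 2 : ℝ) ^ k := by positivity
    obtain ⟨w', h2, h3⟩ := exists_rat_btwn (show w + o' * (1 / 2) ^ k <
      w + 3 / 2 * (o' * (1 / 2) ^ k) by linarith)
    obtain ⟨a', h4, h5⟩ := exists_rat_btwn (show a + 3 / 2 * (o' * (1 / 2) ^ k) <
      a + 2 * (o' * (1 / 2) ^ k) by linarith)
    exact ⟨a', w', h2, h3, h4, h5⟩
  choose a' w' hw'1 hw'2 ha'1 ha'2 using hgrid
  have hok : ∀ k, 0 < o' * (1 / 2 : ℝ) ^ k ∧ o' * (1 / 2 : ℝ) ^ k ≤ o' := fun k =>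
    ⟨by positivity, mul_le_of_le_one_right ho'0.le (pow_le_one₀ (by norm_num) (by norm_num))⟩
  have hbk : ∀ k < km, ∀ l < r, bet P c l (a' k) (w' k) ≤
      β l + V₀ * (2 * (o' * (1 / 2) ^ k)) + s₀ * Q := by
    intro k hk l hl
    obtain ⟨h1, h2⟩ := hok k
    have h3 : s₀ * Q ≤ o' * (1 / 2) ^ k := by
      have h4 : (1 / 2 : ℝ) ^ km ≤ (1 / 2) ^ k :=
        pow_le_pow_of_le_one (by norm_num) (by norm_num) hk.le
      have h5 : s₀ * Q ≤ o₁ * (1 / 2) ^ km * Q := mul_le_mul_of_nonneg_right hs₀2 hQ.le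
      have h6 : o' * (1 / 2) ^ km ≤ o' * (1 / 2) ^ k := mul_le_mul_of_nonneg_left h4 ho'0.le
      have h7 : o₁ * (1 / 2) ^ km * Q = o' * (1 / 2) ^ km := by
        rw [ho']
        ring
      linarith
    refine le_trans ?_ (hgr l hl (2 * (o' * (1 / 2) ^ k)) (by linarith) (by linarith))
    exact (hP.law _).mono (by linarith [hw'1 k]) (by linarith [hw'2 k, ha'1 k])
      (ha'2 k).le (by linarith [hw'2 k]) (by linarith) (by linarith)
  have hκ' : 0 < η' / ((N : ℝ) + 1) := by positivity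
  have hno := Bas.all (S := S) km (Φ := fun k J F A => ∀ l < r, ∀ B : F.Ω → Prop, Sub B A →
      η' / ((N : ℝ) + 1) * Pe F.p A ≤ Pe F.p B → ∀ (a₀ w₀ e₀ : ℕ) (g : ℕ → ℕ), w₀ ≤ a₀ →
      a₀ ≤ ⌊(a' k : ℝ) * J⌋₊ → w₀ ≤ ⌊(w' k : ℝ) * J⌋₊ → e₀ ≤ ⌊θ * w * J⌋₊ → (∀ l' ≤ l, g l' ≤ J) →
      ⌊(bet P c l (a' k) (w' k) + eps l) * J⌋₊ + a₀ ≤ g l + ⌊(a' k : ℝ) * J⌋₊ →
      ¬ ChN F c (l + 1) (fun _ => Kn) a₀ w₀ e₀ g B) fun k hk =>
    Bas.all (S := S) r (Φ := fun l J F A => ∀ B : F.Ω → Prop, Sub B A →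
      η' / ((N : ℝ) + 1) * Pe F.p A ≤ Pe F.p B → ∀ (a₀ w₀ e₀ : ℕ) (g : ℕ → ℕ), w₀ ≤ a₀ →
      a₀ ≤ ⌊(a' k : ℝ) * J⌋₊ → w₀ ≤ ⌊(w' k : ℝ) * J⌋₊ → e₀ ≤ ⌊θ * w * J⌋₊ → (∀ l' ≤ l, g l' ≤ J) →
      ⌊(bet P c l (a' k) (w' k) + eps l) * J⌋₊ + a₀ ≤ g l + ⌊(a' k : ℝ) * J⌋₊ →
      ¬ ChN F c (l + 1) (fun _ => Kn) a₀ w₀ e₀ g B) fun l hl => by
    obtain ⟨h1, h2⟩ := hok k
    have h3 : (0 : ℝ) ≤ w' k := by linarith [hw'1 k]
    have h4 : (w' k : ℝ) ≤ a' k := by linarith [hw'2 k, ha'1 k]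
    have h5 : (a' k : ℝ) ≤ 1 := by linarith [ha'2 k]
    refine bas_ev (no_unif hP c l (fun _ => Kn) (a' k) (w' k) (θ * w) (eps l)
      (by exact_mod_cast h3) (by exact_mod_cast h4) (by exact_mod_cast h5)
      (mul_lt_mul_of_pos_left (by linarith [hw'1 k]) hθ) (hep0 l) ?_) hκ'
    have h6 := hbk k hk l (by omega)
    have h12 : s₀ * Q ≤ εh := hs₀ε.trans ((hεml l (by omega)).trans (heple l hl.le))
    have h7 := hσl l (by omega)
    have h8 := heple l hl.le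
    have h9 : V₀ * (2 * (o' * (1 / 2) ^ k)) ≤ σ / 4 := by
      have := mul_le_mul_of_nonneg_left h2 hV₀0
      linarith
    have h10 : 0 ≤ θ * w := by positivity
    have h11 : 0 ≤ V * εh := by positivity
    linarith
  have htm := bas_ev (hS.2 (εt / 4) (by positivity)) hκ'
  obtain ⟨J₁, hJ₁⟩ := big ((κ : ℝ) + 10) (show 0 < εm / 8 by positivity)
  obtain ⟨J₂, hJ₂⟩ := big (8 : ℝ) (show 0 < εt / 4 by positivity)
  refine Bas.mono (max J₁ J₂) (hno.and htm) ?_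
  rintro J hJ F A ⟨hnoJ, htmJ⟩ G H hL Dx Dl N₀ k1 k2 k3 k4 k5 k6
  have hJ1 := hJ₁ J (le_trans (le_max_left _ _) hJ)
  have hJ2 := hJ₂ J (le_trans (le_max_right _ _) hJ)
  have hJ0 : (0 : ℝ) ≤ J := Nat.cast_nonneg J
  have hJp : (0 : ℝ) < J := by
    rcases hJ0.lt_or_eq with h | h
    · exact h
    · rw [← h] at hJ2; norm_num at hJ2
  have hκr : (1 : ℝ) ≤ κ := by exact_mod_cast hκ1
  have hJm : ∀ j ≤ r, (κ : ℝ) + 10 ≤ eps j / 8 * J := fun j hj =>
    hJ1.trans (mul_le_mul_of_nonneg_right (by linarith [hεml j (by omega)]) hJ0)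
  obtain ⟨g, hg⟩ : ∃ g : ℕ → ℕ, g = fun l => ⌊(β l - d l) * J⌋₊ := ⟨_, rfl⟩
  rw [← hg] at hL k6
  rw [← hg]
  obtain ⟨E, hE⟩ : ∃ E : ℕ → ℕ, E = fun n => if n = 0 then ⌊εt * J⌋₊ else ⌊eps (n - 1) * J⌋₊ :=
    ⟨_, rfl⟩
  have hE0 : E 0 = ⌊εt * J⌋₊ := by rw [hE]; simp
  have hEs : ∀ n, E (n + 1) = ⌊eps n * J⌋₊ := fun n => by rw [hE]; simp
  have hEle : ∀ n, (E (n + 1) : ℝ) ≤ eps n * J := fun n => by
    rw [hEs]
    exact Nat.floor_le (mul_nonneg (hep0 n).le hJ0)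
  have hEge : ∀ n, eps n * J - 1 ≤ (E (n + 1) : ℝ) := fun n => by
    rw [hEs]
    linarith [Nat.lt_floor_add_one (eps n * J)]
  obtain ⟨x, hx⟩ := rec_sum (fun l => E (l + 1) + κ) (fun j l => K l * dgp K j l) r
  have hxle : ∀ l < r, (x l : ℝ) ≤ 2 * eps l * J := by
    intro l
    induction l using Nat.strong_induction_on with
    | _ l ih =>
      intro hl
      have h1 : (x l : ℝ) = E (l + 1) + κ + ∑ j ∈ range l, (x j : ℝ) * (K l * dgp K j l : ℕ) := by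
        rw [hx l hl]
        push_cast
        ring
      have h2 : ∀ j ∈ range l, (x j : ℝ) * (K l * dgp K j l : ℕ) ≤ eps l * J / (6 * (r + 1)) := by
        intro j hj
        rw [mem_range] at hj
        have h3 := ih j hj (hj.trans hl)
        have h4 := hloss j l (K l) hj hl.le (hKT j l hj hl)
        rw [le_div_iff₀ (by positivity)]
        have h5 := mul_le_mul_of_nonneg_right h4 hJ0
        have h6 := mul_le_mul_of_nonneg_right h3
          (show (0 : ℝ) ≤ ((K l * dgp K j l : ℕ) : ℝ) * (6 * (r + 1)) by positivity)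
        linarith
      have h3 := Finset.sum_le_sum h2
      rw [Finset.sum_const, card_range, nsmul_eq_mul] at h3
      have h4 : (l : ℝ) * (eps l * J / (6 * (r + 1))) ≤ eps l * J / 6 := by
        rw [mul_div_assoc', div_le_div_iff₀ (by positivity) (by norm_num)]
        have h5 : (l : ℝ) ≤ r + 1 := by
          have : l ≤ r + 1 := by omega
          exact_mod_cast this
        have h6 : 0 ≤ eps l * J := mul_nonneg (hep0 l).le hJ0
        have := mul_le_mul_of_nonneg_right h5 h6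
        linarith
      have h5 := hEle l
      have h6 := hJm l hl.le
      have h7 : 0 ≤ eps l * J := mul_nonneg (hep0 l).le hJ0
      rw [h1]
      linarith
  have hgβ : ∀ l, g l = ⌊(β l - d l) * J⌋₊ := fun l => by rw [hg]
  have hglb : ∀ l, (β l - d l) * J - 1 ≤ (g l : ℝ) := fun l => by
    rw [hgβ]
    linarith [Nat.lt_floor_add_one ((β l - d l) * J)]
  have hgub : ∀ l < r, (g l : ℝ) ≤ (β l - d l) * J := fun l hl => by
    rw [hgβ]
    refine Nat.floor_le (mul_nonneg ?_ hJ0)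
    linarith [hβa l hl, hdle l hl, heple l hl.le]
  have hxg : ∀ l < r, x l ≤ g l := by
    intro l hl
    have h1 := hxle l hl
    have h2 := hglb l
    have h3 := hdle l hl
    have h4 := heple l hl.le
    have h5 := hJm l hl.le
    have h6 := hβa l hl
    have h7 : (a - 1 / 32 * a) * J ≤ (β l - d l) * J :=
      mul_le_mul_of_nonneg_right (by linarith) hJ0
    have h8 : eps l * J ≤ a / 32 * J := mul_le_mul_of_nonneg_right (by linarith) hJ0
    have h9 : 0 ≤ a * J := mul_nonneg ha0.le hJ0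
    have h10 : (x l : ℝ) ≤ g l := by linarith
    exact_mod_cast h10
  obtain ⟨q, hq⟩ : ∃ q : ℕ → ℕ, q = fun l => g l - x l := ⟨_, rfl⟩
  have hql : ∀ l < r, q l + x l = g l := fun l hl => by
    rw [hq]
    have := hxg l hl
    show g l - x l + x l = g l
    omega
  have hgls : ∀ l < r, E (l + 1) + κ + gls K g q l = x l := by
    intro l hl
    rw [hx l hl]
    unfold gls
    congr 1
    refine Finset.sum_congr rfl fun j hj => ?_
    have := hql j ((mem_range.1 hj).trans hl)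
    congr 1
    omega
  -- the bad event
  by_contra hcon
  have hbad : ∃ B : F.Ω → Prop, B = fun ω => A ω ∧ ∀ b, NBx c (G (ptr F J ω)) g ⌊a * J⌋₊ (F.t ω) r b →
      |eval b (Dx (ptr F J ω))| ≤ 2 ^ ⌊η₂ * J⌋₊ / 2 ^ N₀ := ⟨_, rfl⟩
  obtain ⟨B₀, hB₀⟩ := hbad
  have hB₀A : Sub B₀ A := fun ω hω => by rw [hB₀] at hω; exact hω.1
  have hB₀P : Pe F.p B₀ < (1 - η') * Pe F.p A := by
    by_contra h
    push Not at h
    exact hcon ⟨B₀, hB₀A, h, fun ω hω => by rw [hB₀] at hω; exact hω.2⟩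
  obtain ⟨A', hA'⟩ : ∃ A' : F.Ω → Prop, A' = fun ω => A ω ∧ ¬ B₀ ω := ⟨_, rfl⟩
  have hA'A : Sub A' A := fun ω hω => by rw [hA'] at hω; exact hω.1
  have hA'P : η' * Pe F.p A < Pe F.p A' := by
    have h1 := pe_split F.p hB₀A
    rw [← hA'] at h1
    linarith
  have hPA0 : 0 ≤ Pe F.p A := Pe_nonneg F.isLaw A
  have hA'0 : 0 < Pe F.p A' := lt_of_le_of_lt (mul_nonneg hη'.le hPA0) hA'P
  have hlow : ∀ ω, A' ω → ∃ b, NBx c (G (ptr F J ω)) g ⌊a * J⌋₊ (F.t ω) r b ∧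
      2 ^ ⌊η₂ * J⌋₊ / 2 ^ N₀ ≤ |eval b (Dx (ptr F J ω))| := by
    intro ω hω
    rw [hA'] at hω
    by_contra h
    push Not at h
    refine hω.2 ?_
    rw [hB₀]
    exact ⟨hω.1, fun b hb => (h b hb).le⟩
  have hNB : ∀ B : F.Ω → Prop, Pe F.p A' ≤ N * Pe F.p B →
      η' / ((N : ℝ) + 1) * Pe F.p A ≤ Pe F.p B := by
    intro B hB
    rw [div_mul_eq_mul_div, div_le_iff₀ (by positivity)]
    have h1 : 0 ≤ Pe F.p B := Pe_nonneg F.isLaw B
    nlinarith
  -- the numbers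
  obtain ⟨e₁, he₁⟩ : ∃ e₁ : ℕ, e₁ = ⌊e₀ * J⌋₊ + (⌊(vs + εh) * J⌋₊ + 1) + ⌊εh * J⌋₊ := ⟨_, rfl⟩
  obtain ⟨e', he'⟩ : ∃ e' : ℕ, e' = e₁ + E (r + 1) + (⌊(vs + εh) * J⌋₊ + 1) + ⌊2 * εh * J⌋₊ :=
    ⟨_, rfl⟩
  have hf1 : (⌊e₀ * J⌋₊ : ℝ) ≤ e₀ * J := Nat.floor_le (mul_nonneg he₀ hJ0)
  have hf2 : (⌊(vs + εh) * J⌋₊ : ℝ) ≤ (vs + εh) * J :=
    Nat.floor_le (mul_nonneg (by linarith) hJ0)
  have hf3 : (⌊εh * J⌋₊ : ℝ) ≤ εh * J := Nat.floor_le (mul_nonneg hε0.le hJ0)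
  have hf4 : (⌊2 * εh * J⌋₊ : ℝ) ≤ 2 * εh * J := Nat.floor_le (mul_nonneg (by linarith) hJ0)
  have hf5 : (⌊a * J⌋₊ : ℝ) ≤ a * J := Nat.floor_le (mul_nonneg ha0.le hJ0)
  have hf6 : (⌊w * J⌋₊ : ℝ) ≤ w * J := Nat.floor_le (mul_nonneg hw.le hJ0)
  have hEi := hEle r
  rw [hepi] at hEi
  have hJi := hJm r le_rfl
  rw [hepi] at hJi
  have he₁r : (e₁ : ℝ) ≤ (e₀ + vs + 2 * εh) * J + 1 := by
    rw [he₁]
    push_cast
    linarith
  have he'r : (e' : ℝ) ≤ (e₀ + 2 * vs + 6 * εh) * J + 2 := by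
    rw [he']
    push_cast
    linarith
  have hgd : ∀ l < r, ∀ l' ≤ l, g l' ≤ g l + (⌊(vs + εh) * J⌋₊ + 1) := by
    intro l hl l' hl'
    rcases hl'.lt_or_eq with h | h
    · have h1 := hsrt l (by omega) l' h
      have h2 := hgub l' (by omega)
      have h3 := hglb l
      have h4 := hdle l hl
      have h5 := heple l hl.le
      have h6 : (β l' - d l') * J ≤ (β l - d l + (vs + εh)) * J := by
        refine mul_le_mul_of_nonneg_right ?_ hJ0
        have := hd0 l' (by omega)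
        show β l' - d l' ≤ β l - d l + (vs + εh)
        linarith
      have h7 : (g l' : ℝ) < (g l : ℝ) + ⌊(vs + εh) * J⌋₊ + 2 := by
        linarith [Nat.lt_floor_add_one ((vs + εh) * J)]
      have h8 : g l' < g l + ⌊(vs + εh) * J⌋₊ + 2 := by exact_mod_cast h7
      omega
    · subst h
      omega
  refine hrel (A := A') (e := ⌊e₀ * J⌋₊) (e₁ := e₁) (e' := e') (e₀ := ⌊εt / 2 * J⌋₊)
    (y := ⌊η₂ * J⌋₊) (N₀ := N₀) (q := q) (E := E) (G := G) (H := H) (Dx := Dx) (Dl := Dl)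
    hA'0 (Nat.floor_mono (mul_le_mul_of_nonneg_right hwa hJ0))
    hc (hL.sub hA'A) k1 k2 k3 k4
    (fun ω hω => k5 ω (hA'A ω hω)) (fun ω hω => k6 ω (hA'A ω hω)) hlow ?_ ?_ ?_ ?_ ?_ ?_ ?_ ?_ ?_
    ?_ ?_ ?_
  · -- the time
    refine tmN_of htmJ ?_ hA'A hA'0 fun B _ hB => hNB B hB
    linarith [Nat.lt_floor_add_one (εt / 2 * J)]
  · -- `E 0`
    rw [hE0]
    refine Nat.le_floor ?_
    push_cast
    have : (⌊εt / 2 * J⌋₊ : ℝ) ≤ εt / 2 * J := Nat.floor_le (by positivity)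
    linarith
  · intro l hl
    rw [hEs]
    refine Nat.le_floor ?_
    push_cast
    rw [hE0]
    have h1 : (⌊εt * J⌋₊ : ℝ) ≤ εt * J := Nat.floor_le (by positivity)
    have h2 : (κ : ℝ) * ⌊εt * J⌋₊ ≤ κ * (εt * J) := mul_le_mul_of_nonneg_left h1 (by linarith)
    have h3 := mul_le_mul_of_nonneg_right hεtκ hJ0
    have h4 : εm * J ≤ eps l * J := mul_le_mul_of_nonneg_right (hεml l (by omega)) hJ0
    have h5 : 0 ≤ εm * J := by positivity
    linarith
  · intro l hl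
    rw [hEs (l + 1)]
    refine Nat.le_floor ?_
    push_cast
    have h1 : ((V : ℝ) + 4) ^ (D * dgp K l r + 1) ≤ Zf V D r (T l) := by
      have h2 : (V + 4) ^ (D * dgp K l r + 1) ≤ Zf V D r (T l) := by
        unfold Zf
        refine le_trans (Nat.pow_le_pow_right (by omega) ?_) (Nat.le_add_right _ _)
        exact Nat.add_le_add_right (Nat.mul_le_mul_left _ (hdg l r hl le_rfl)) _
      exact_mod_cast h2
    calc ((V : ℝ) + 4) ^ (D * dgp K l r + 1) * (E (l + 1) : ℝ) ≤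
          Zf V D r (T l) * (eps l * J) :=
          mul_le_mul h1 (hEle l) (Nat.cast_nonneg _) (Nat.cast_nonneg _)
      _ = eps l * Zf V D r (T l) * J := by ring
      _ ≤ _ := mul_le_mul_of_nonneg_right (hepm l (l + 1) (by omega) (by omega)) hJ0
  · intro l hl
    have := hql l hl
    omega
  · intro l hl
    have h1 := hql l hl
    have h2 := hgls l hl
    omega
  · have h1 : ∑ j ∈ range r, (g j - q j) * (D * dgp K j r) =
        ∑ j ∈ range r, x j * (D * dgp K j r) := Finset.sum_congr rfl fun j hj => by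
      have := hql j (mem_range.1 hj)
      congr 1
      omega
    rw [h1]
    refine Nat.le_floor ?_
    rw [Nat.cast_add, Nat.cast_add, Nat.cast_sum]
    have h2 : ∀ j ∈ range r, ((x j * (D * dgp K j r) : ℕ) : ℝ) ≤ εh * J / (6 * (r + 1)) := by
      intro j hj
      rw [mem_range] at hj
      have h3 := hxle j hj
      have h4 := hloss j r D hj le_rfl (hDT j)
      rw [hepi] at h4
      rw [le_div_iff₀ (by positivity), Nat.cast_mul]
      have h5 := mul_le_mul_of_nonneg_right h4 hJ0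
      have h6 := mul_le_mul_of_nonneg_right h3
        (show (0 : ℝ) ≤ ((D * dgp K j r : ℕ) : ℝ) * (6 * (r + 1)) by positivity)
      linarith
    have h3 := Finset.sum_le_sum h2
    rw [Finset.sum_const, card_range, nsmul_eq_mul] at h3
    have h4 : (r : ℝ) * (εh * J / (6 * (r + 1))) ≤ εh * J / 6 := by
      rw [mul_div_assoc', div_le_div_iff₀ (by positivity) (by norm_num)]
      have h5 : (r : ℝ) ≤ r + 1 := by
        have : r ≤ r + 1 := by omega
        exact_mod_cast this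
      have h6 : 0 ≤ εh * J := mul_nonneg hε0.le hJ0
      have := mul_le_mul_of_nonneg_right h5 h6
      linarith
    have h5 : εh * J ≤ η₂ / 8 * J := mul_le_mul_of_nonneg_right hε1 hJ0
    have h6 : 0 ≤ εh * J := mul_nonneg hε0.le hJ0
    linarith
  · intro l hl l' hl'
    have h1 : nlp g l' l ≤ ⌊(vs + εh) * J⌋₊ + 1 := by
      unfold nlp
      have : (Finset.Icc l' l).sup g ≤ g l + (⌊(vs + εh) * J⌋₊ + 1) :=
        Finset.sup_le fun j hj => hgd l hl j (Finset.mem_Icc.1 hj).2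
      omega
    have h2 := hgls l hl
    have h3 := hxle l hl
    have h4 := hEge l
    have h5 : eps l * 4 ≤ εh := by
      have h6 := hepm l r hl le_rfl
      rw [hepi] at h6
      refine le_trans (mul_le_mul_of_nonneg_left ?_ (hep0 l).le) h6
      have : 4 ≤ Zf V D r (T l) := by
        unfold Zf
        have h7 : (V + 4) ^ 1 ≤ (V + 4) ^ (D * T l ^ r + 1) :=
          Nat.pow_le_pow_right (by omega) (by omega)
        rw [pow_one] at h7
        omega
      exact_mod_cast this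
    have h6 := mul_le_mul_of_nonneg_right h5 hJ0
    have h7 := hJm l hl.le
    have h8 : κ + gls K g q l ≤ ⌊εh * J⌋₊ := by
      refine Nat.le_floor ?_
      have h9 : (E (l + 1) : ℝ) + (κ + gls K g q l : ℕ) = x l := by
        rw [← h2]
        push_cast
        ring
      linarith
    rw [he₁]
    omega
  · intro l hl l' hl'
    have h1 := hgd l hl l' hl'
    have h2 := hql l hl
    have h3 := hql l' (by omega)
    have h4 : x l ≤ ⌊2 * εh * J⌋₊ := by
      refine Nat.le_floor ((hxle l hl).trans ?_)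
      exact mul_le_mul_of_nonneg_right (by linarith [heple l hl.le]) hJ0
    rw [he']
    omega
  · intro l hl
    have h1 := hql l hl
    have h2 := hgub l hl
    have h3 : (q l : ℝ) ≤ g l := by
      have : q l ≤ g l := by omega
      exact_mod_cast this
    have h4 := hσl l (by omega)
    have h5 : (q l : ℝ) + e₁ + 7 * E (r + 1) ≤ J := by
      have h6 : (β l - d l) * J + ((e₀ + vs + 2 * εh) * J + 1) + 7 * (εh * J) ≤ 1 * J := by
        have h7 : (β l - d l + (e₀ + vs + 2 * εh) + εh + 7 * εh) * J ≤ 1 * J := by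
          refine mul_le_mul_of_nonneg_right ?_ hJ0
          have := hd0 l hl
          show β l - d l + (e₀ + vs + 2 * εh) + εh + 7 * εh ≤ 1
          linarith
        linarith
      linarith
    exact_mod_cast h5
  · have h1 : (⌊w * J⌋₊ : ℝ) + 4 * E (r + 1) ≤ J := by
      have h2 : (w + 4 * εh) * J ≤ 1 * J := mul_le_mul_of_nonneg_right (by linarith) hJ0
      linarith
    exact_mod_cast h1
  · intro l hl μ hμ1 hμ2 B hB hPB hch
    have hlr : l < r := by omega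
    have hEl := hEge l
    have hJl := hJm l hl.le
    have hel : εm ≤ eps l := hεml l (by omega)
    have hμr1 : eps l * J - 1 ≤ (μ : ℝ) := hEl.trans (by exact_mod_cast hμ1)
    have hμr2 : (μ : ℝ) ≤ εh * J := (show (μ : ℝ) ≤ E (r + 1) by exact_mod_cast hμ2).trans hEi
    have hμ0 : (0 : ℝ) < μ := by
      have : 0 ≤ eps l * J := mul_nonneg (hep0 l).le hJ0
      linarith
    obtain ⟨t, ht⟩ : ∃ t : ℝ, t = 4 * μ / (J * o') := ⟨_, rfl⟩
    have hJo : 0 < J * o' := mul_pos hJp ho'0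
    have ht' : t * (J * o') = 4 * μ := by rw [ht]; field_simp
    have ht0 : 0 < t := by rw [ht]; positivity
    have ht1 : t ≤ 1 := by
      rw [ht, div_le_one hJo]
      have h1 : εh * J ≤ o' / 8 * J := mul_le_mul_of_nonneg_right hε2 hJ0
      have h2 : 0 ≤ o' * J := by positivity
      linarith
    obtain ⟨k, hk1, hk2⟩ := exists_nat_pow_near_of_lt_one ht0 ht1
      (show (0 : ℝ) < 1 / 2 by norm_num) (by norm_num)
    have hkm' : k < km := by
      by_contra h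
      push Not at h
      have h1 : (1 / 2 : ℝ) ^ k ≤ (1 / 2) ^ km :=
        pow_le_pow_of_le_one (by norm_num) (by norm_num) h
      have h2 : 2 * εm / o' ≤ t := by
        rw [ht, div_le_div_iff₀ ho'0 hJo]
        have h3 : εm * J ≤ eps l * J := mul_le_mul_of_nonneg_right hel hJ0
        have h4 : 2 * (εm * J) ≤ 4 * μ := by linarith
        calc 2 * εm * (J * o') = 2 * (εm * J) * o' := by ring
          _ ≤ 4 * μ * o' := mul_le_mul_of_nonneg_right h4 ho'0.le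
      linarith
    obtain ⟨ok, hokd⟩ : ∃ ok : ℝ, ok = o' * (1 / 2) ^ k := ⟨_, rfl⟩
    have hk3 : 4 * (μ : ℝ) ≤ ok * J := by
      have h1 := mul_le_mul_of_nonneg_right hk2 hJo.le
      rw [ht'] at h1
      rw [hokd]
      linarith
    have hk4 : ok * J ≤ 8 * μ := by
      have h1 := mul_le_mul_of_nonneg_right hk1.le hJo.le
      rw [ht', pow_succ] at h1
      rw [hokd]
      linarith
    have h1 := hbk k hkm' l hlr
    have h2 := hw'1 k
    have h3 := ha'1 k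
    have h4 := ha'2 k
    have h5 := hw'2 k
    rw [← hokd] at h1 h2 h3 h4 h5
    have hok0 : 0 < ok := by rw [hokd]; positivity
    have hql1 := hql l hl
    have hgl := hglb l
    have hgl' := hgub l hl
    have hdl := hdle l hl
    have hxl := hxle l hl
    have hqr : (q l : ℝ) = g l - x l := by
      have : (q l : ℝ) + x l = g l := by exact_mod_cast hql1
      linarith
    refine hnoJ k hkm' l hl B (fun ω hω => hA'A ω (hB ω hω)) (hNB B hPB) _ _ _ _ ?_ ?_ ?_ ?_ ?_ ?_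
      hch
    · exact Nat.add_le_add_right (Nat.floor_mono (mul_le_mul_of_nonneg_right hwa hJ0)) _
    · refine Nat.le_floor ?_
      push_cast
      have : (a + 3 / 2 * ok) * J ≤ a' k * J := mul_le_mul_of_nonneg_right h3.le hJ0
      linarith
    · refine Nat.le_floor ?_
      push_cast
      have : (w + ok) * J ≤ w' k * J := mul_le_mul_of_nonneg_right h2.le hJ0
      linarith
    · refine Nat.le_floor (he'r.trans ?_)
      have h6 : (e₀ + 2 * vs + 6 * εh + 1 * εh) * J ≤ θ * w * J := by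
        refine mul_le_mul_of_nonneg_right ?_ hJ0
        linarith
      linarith
    · intro l' hl'
      have h6 : ∀ l₁ < r, (q l₁ : ℝ) ≤ (1 - σ) * J := by
        intro l₁ hl₁
        have h7 := hσl l₁ (by omega)
        have h8 := hql l₁ hl₁
        have h9 : (q l₁ : ℝ) ≤ g l₁ := by
          have : q l₁ ≤ g l₁ := by omega
          exact_mod_cast this
        have h10 := hgub l₁ hl₁
        have h11 : (β l₁ - d l₁) * J ≤ (1 - σ) * J := by
          refine mul_le_mul_of_nonneg_right ?_ hJ0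
          have := hd0 l₁ hl₁
          have h12 : 0 < θ * w := by positivity
          show β l₁ - d l₁ ≤ 1 - σ
          linarith
        linarith
      have h7 : (V + 10) * εh * J ≤ σ * J := by
        refine mul_le_mul_of_nonneg_right ?_ hJ0
        have : 0 ≤ (V + 10) * εh := by positivity
        linarith
      have h8 : (V : ℝ) * μ ≤ V * (εh * J) := mul_le_mul_of_nonneg_left hμr2 hV0'
      have h9 : 0 ≤ V * (εh * J) := by positivity
      have h10 : (E (l + 1) : ℝ) ≤ εh * J :=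
        (hEle l).trans (mul_le_mul_of_nonneg_right (heple l hl.le) hJ0)
      show (if l' < l then q l' + 4 * μ else q l + E (l + 1) + V * μ) ≤ J
      split_ifs with h
      · have h11 := h6 l' (by omega)
        have h12 : (q l' : ℝ) + 4 * μ ≤ J := by linarith
        exact_mod_cast h12
      · have h11 := h6 l hl
        have h12 : (q l : ℝ) + E (l + 1) + V * μ ≤ J := by linarith
        exact_mod_cast h12
    · show ⌊(bet P c l (a' k) (w' k) + eps l) * J⌋₊ + (⌊a * J⌋₊ + 4 * μ) ≤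
        (if l < l then q l + 4 * μ else q l + E (l + 1) + V * μ) + ⌊(a' k : ℝ) * J⌋₊
      rw [if_neg (lt_irrefl l)]
      have hb0 : 0 ≤ bet P c l (a' k) (w' k) := by
        have h6 : (0 : ℝ) ≤ w' k := by linarith
        have h7 : (w' k : ℝ) ≤ a' k := by linarith
        have h8 : (a' k : ℝ) ≤ 1 := by linarith [(hok k).2, hokd]
        exact (by linarith : (0 : ℝ) ≤ a' k).trans (hP.low _ _ _ h6 h7 h8)
      have h6 : (⌊(bet P c l (a' k) (w' k) + eps l) * J⌋₊ : ℝ) ≤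
          (bet P c l (a' k) (w' k) + eps l) * J :=
        Nat.floor_le (mul_nonneg (add_nonneg hb0 (hep0 l).le) hJ0)
      have h7 : (bet P c l (a' k) (w' k) + eps l) * J ≤ (β l + V₀ * (2 * ok) + s₀ * Q + eps l) * J := by
        refine mul_le_mul_of_nonneg_right ?_ hJ0
        show _ ≤ β l + V₀ * (2 * ok) + s₀ * Q + eps l
        linarith
      have h8 : V₀ * (ok * J) ≤ V₀ * (8 * μ) := mul_le_mul_of_nonneg_left hk4 hV₀0
      have h9 : (16 * V₀ + 4) * (μ : ℝ) ≤ V * μ := mul_le_mul_of_nonneg_right hVr hμ0.le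
      have h10 := Nat.lt_floor_add_one ((a' k : ℝ) * J)
      have h11 : (a + 3 / 2 * ok) * J ≤ a' k * J := mul_le_mul_of_nonneg_right h3.le hJ0
      have h12 : d l * J ≤ eps l * J := mul_le_mul_of_nonneg_right hdl hJ0
      have h14 : s₀ * Q * J ≤ eps l * J := mul_le_mul_of_nonneg_right (hs₀ε.trans hel) hJ0
      have h13 : ((⌊(bet P c l (a' k) (w' k) + eps l) * J⌋₊ + (⌊a * J⌋₊ + 4 * μ) : ℕ) : ℝ) ≤
          ((q l + E (l + 1) + V * μ + ⌊(a' k : ℝ) * J⌋₊ : ℕ) : ℝ) := by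
        push_cast
        rw [hqr]
        linarith
      exact_mod_cast h13

end Pool.STV90
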